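import Mathlib
import Pool.Agent.Helper728.Coag.Example

/-!
The solvability set of the quasi-stationary coagulation equation with source, in the critical
case `gamma + 2 lambda = 1`.

The set `S` of all `M ≥ 0` for which `K[f] - M x^(-lambda) f + η = 0` has a solution is computed
for every kernel and every source.  It is `[1, ∞)` as soon as the sizes which can be built from
the source are unbounded, in particular for every kernel with a positive profile, and it is
`(0, ∞)` when these sizes stay bounded, which happens only for kernels that vanish somewhere.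
-/

open MeasureTheory Set
open scoped ENNReal

namespace Pool.Agent.Results.MP_e589f0_an.CriticalRemovalRate

open Pool.Agent.Helper728.Coag

theorem result :
    (∀ (γ : ℝ) (F : ℝ → ℝ), IsProfile γ F → ∀ (η : Measure ℝ) (L : ℝ), IsSource η L →
      ((∀ s ∈ Ioo (0:ℝ) 1, 0 < F s) → solvable γ F η = Ici 1) ∧
      (¬ Bornology.IsBounded (reach γ F η) → solvable γ F η = Ici 1) ∧
      (Bornology.IsBounded (reach γ F η) → solvable γ F η = Ioi 0) ∧
      (η ≪ volume → solvableFun γ F η = solvable γ F η)) ∧
    (∀ γ : ℝ, γ < 1 → ∃ F e : ℝ → ℝ, IsProfile γ F ∧ (∀ x, 0 ≤ e x) ∧ Measurable e ∧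
      IsSource (volume.withDensity fun x => ENNReal.ofReal (e x)) 2 ∧
      solvable γ F (volume.withDensity fun x => ENNReal.ofReal (e x)) = Ioi 0) := by
  refine ⟨?_, ?_⟩
  · intro γ F hF η L hη
    refine ⟨fun hpos => ?_, fun hu => solvable_unbounded hF hη hu,
      fun hb => solvable_bounded hF hη hb, fun hac => solvableFun_eq hF hη hac⟩
    exact solvable_unbounded hF hη (reach_unbounded hη hpos)
  · intro γ hγ
    refine ⟨gapF γ, gapE, gap_profile hγ, ?_, measurable_const.indicator measurableSet_Icc,
      gap_source, solvable_bounded (gap_profile hγ) gap_source (gap_bounded hγ)⟩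
    intro x
    exact indicator_nonneg (fun _ _ => by norm_num) x

end Pool.Agent.Results.MP_e589f0_an.CriticalRemovalRate
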